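import Pool.Agent.Work.MP_da56a7_lc.Bd.B01
import Pool.Agent.Work.MP_da56a7_lc.Bd.B02

set_option autoImplicit false

/-!
# MP_da56a7_lc, block B: assembly of the items
-/

namespace Pool.Agent.Work.MP_da56a7_lc.B

theorem main : S_Fin :=
  pr_Fin (pr_Bits (pr_Seq (pr_NS pr_Small (pr_Full pr_JM) (pr_QQ (pr_QS (pr_KN pr_JM)) pr_MX)
    pr_Lift (pr_WO pr_Small)) (pr_Bit pr_Half pr_Exh)) (pr_CI (pr_CI1 pr_Cyl pr_Un)))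
    (pr_Ulam pr_Small) pr_Rec (pr_AD pr_Nf) pr_Dom pr_Esc pr_Tail
    (pr_Main pr_Bdd pr_MeasA pr_KM pr_Thr (pr_Hit pr_Nf) (pr_Bad pr_Cnt)) pr_Unc

end Pool.Agent.Work.MP_da56a7_lc.B
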