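import Pool.Agent.Work.MP_da56a7_lc.Bd.B01

set_option autoImplicit false

open MeasureTheory Set Filter

namespace Pool.Agent.Work.MP_da56a7_lc.B

/-- composition of all items -/
theorem compose
    (pSmall : S_Small) (pJM : S_JM) (pKN : S_JM → S_KN) (pFull : S_JM → S_Full)
    (pQS : S_KN → S_QS) (pMX : S_MX) (pQQ : S_QS → S_MX → S_QQ) (pLift : S_Lift)
    (pWO : S_Small → S_WO) (pNS : S_Small → S_Full → S_QQ → S_Lift → S_WO → S_NS)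
    (pHalf : S_Half) (pExh : S_Exh) (pBit : S_Half → S_Exh → S_Bit)
    (pSeq : S_NS → S_Bit → S_Seq) (pCyl : S_Cyl) (pUn : S_Un)
    (pCI1 : S_Cyl → S_Un → S_CI1) (pCI : S_CI1 → S_CI) (pBits : S_Seq → S_CI → S_Bits)
    (pUlam : S_Small → S_Ulam) (pRec : S_Rec) (pNf : S_Nf) (pAD : S_Nf → S_AD) (pDom : S_Dom)
    (pEsc : S_Esc) (pTail : S_Tail) (pBdd : S_Bdd) (pMeasA : S_MeasA) (pKM : S_KM)
    (pThr : S_Thr) (pHit : S_Nf → S_Hit) (pCnt : S_Cnt) (pBad : S_Cnt → S_Bad)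
    (pMain : S_Bdd → S_MeasA → S_KM → S_Thr → S_Hit → S_Bad → S_Main) (pUnc : S_Unc)
    (pFin : S_Bits → S_Ulam → S_Rec → S_AD → S_Dom → S_Esc → S_Tail → S_Main → S_Unc → S_Fin) :
    S_Fin :=
  pFin (pBits (pSeq (pNS pSmall (pFull pJM) (pQQ (pQS (pKN pJM)) pMX) pLift (pWO pSmall))
    (pBit pHalf pExh)) (pCI (pCI1 pCyl pUn))) (pUlam pSmall) pRec (pAD pNf) pDom pEsc pTail
    (pMain pBdd pMeasA pKM pThr (pHit pNf) (pBad pCnt)) pUnc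

end Pool.Agent.Work.MP_da56a7_lc.B
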