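import Mathlib

set_option autoImplicit false

/-!
# MP_da56a7_lc, block B: definitions

If `κ ≤ 𝔠` is real-valued measurable, then `𝔞 = ℵ₁` or `𝔟 ≥ ℵ₂`. See `B/PROOF.md`.
-/

open MeasureTheory Set Filter

namespace Pool.Agent.Work.MP_da56a7_lc.B

/-- the Cantor space -/
abbrev Y : Type := ℕ → Bool

/-- `μ` is a probability measure defined on all subsets of `X`, vanishing on points, and a union of
fewer than `|X|` null sets is null -/
structure Tot (X : Type) [MeasurableSpace X] (μ : Measure X) : Prop where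
  allM : ∀ s : Set X, MeasurableSet s
  prob : IsProbabilityMeasure μ
  pts : ∀ x : X, μ {x} = 0
  unc : Cardinal.aleph0 < Cardinal.mk X
  add : ∀ (ι : Type) (N : ι → Set X), Cardinal.mk ι < Cardinal.mk X → (∀ i, μ (N i) = 0) →
    μ (⋃ i, N i) = 0

/-- the part `A'` of `A` is given by a Borel condition on `f`, mod null -/
def Rep {X : Type} [MeasurableSpace X] (μ : Measure X) (f : X → Y) (A A' : Set X) : Prop :=
  ∃ B : Set Y, MeasurableSet B ∧ μ ((A' \ (A ∩ f ⁻¹' B)) ∪ ((A ∩ f ⁻¹' B) \ A')) = 0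

/-- no positive set has all its parts given by Borel conditions on `f` -/
def NoRep {X : Type} [MeasurableSpace X] (μ : Measure X) (f : X → Y) : Prop :=
  ∀ A : Set X, μ A ≠ 0 → ∃ A', A' ⊆ A ∧ ¬ Rep μ f A A'

/-- every positive Borel set contains a point of `S` which `q` sends to `T` -/
def FullC (m : Measure Y) (S T : Set Y) (q : Y → Y) : Prop :=
  ∀ C : Set Y, MeasurableSet C → m C ≠ 0 → ∃ s ∈ S, s ∈ C ∧ q s ∈ T

/-- the same inside `B`, `m B > 0` -/
structure FnC (m : Measure Y) (S T : Set Y) (B : Set Y) (q : Y → Y) : Prop where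
  mB : MeasurableSet B
  mq : Measurable q
  pos : m B ≠ 0
  full : ∀ C : Set Y, MeasurableSet C → C ⊆ B → m C ≠ 0 → ∃ s ∈ S, s ∈ C ∧ q s ∈ T

/-- the sigma-algebra generated by the sets `R i`, `i < j` -/
@[reducible] def Sg {X J : Type} [LT J] (R : J → Set X) (j : J) : MeasurableSpace X :=
  MeasurableSpace.generateFrom {s | ∃ i, i < j ∧ s = R i}

/-- cylinder sets -/
def cyl {X J : Type} (R : J → Set X) (s : Finset J) (ε : J → Bool) : Set X :=
  {x | ∀ i ∈ s, (x ∈ R i ↔ ε i = true)}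

/-- `R j` halves every set of the sigma-algebra of the earlier ones -/
def Hv {X J : Type} [MeasurableSpace X] [LT J] (μ : Measure X) (R : J → Set X) : Prop :=
  ∀ (j : J) (E : Set X), MeasurableSet[Sg R j] E → 2 * μ (R j ∩ E) = μ E

/-- the sigma-algebra generated by the bits `b β k`, `β < γ` -/
@[reducible] def Sb {X I : Type} [LT I] (b : I → ℕ → Set X) (γ : I) : MeasurableSpace X :=
  MeasurableSpace.generateFrom {s | ∃ β, β < γ ∧ ∃ k, s = b β k}

/-- cylinder sets for bits -/
def cylb {X I : Type} (b : I → ℕ → Set X) (s : Finset (I × ℕ)) (ε : I × ℕ → Bool) : Set X :=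
  {x | ∀ p ∈ s, (x ∈ b p.1 p.2 ↔ ε p = true)}

/-- `E` is independent of the bits from `γ` on, which are fair and independent -/
def Ind {X I : Type} [MeasurableSpace X] [LE I] (μ : Measure X) (b : I → ℕ → Set X) (γ : I)
    (E : Set X) : Prop :=
  ∀ (s : Finset (I × ℕ)) (ε : I × ℕ → Bool), (∀ p ∈ s, γ ≤ p.1) →
    2 ^ s.card * μ (E ∩ cylb b s ε) = μ E

/-- the sigma-algebra of the function `F` and the bits below `γ` -/
@[reducible] def Gm {X I : Type} [LT I] (b : I → ℕ → Set X) (F : X → Y) (γ : I) : MeasurableSpace X :=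
  MeasurableSpace.comap F inferInstance ⊔ Sb b γ

/-- every function `F` is independent of the bits from some `γ` on, jointly with the earlier bits -/
def Bits {X I : Type} [MeasurableSpace X] [LT I] [LE I] (μ : Measure X) (b : I → ℕ → Set X) :
    Prop :=
  ∀ F : X → Y, ∃ γ : I, ∀ E, MeasurableSet[Gm b F γ] E → Ind μ b γ E

/-- a partition of `ℕ` into infinitely many infinite sets `{val = j}` -/
def val (k : ℕ) : ℕ := (Nat.unpair k).1

/-- the number `n` with `u n ≤ k < u (n + 1)` -/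
def Nf (u : ℕ → ℕ) (k : ℕ) : ℕ := Nat.findGreatest (fun n => u n ≤ k) k

/-- the recursion which defines the family -/
def IsSys {I X : Type} [LT I] (b : I → ℕ → Set X) (e : I → I → ℕ) (g : I → ℕ → ℕ)
    (A : I → X → Set ℕ) : Prop :=
  ∀ α x k, k ∈ A α x ↔ x ∈ b α k ∧ Nf (g α) k < val k ∧
    ∀ β, β < α → e α β ≤ Nf (g α) k → k ∉ A β x

/-- the good points of `Z` between `u` and `v` -/
def Ks {I : Type} [LT I] (A : I → Set ℕ) (e : I → ℕ) (Z : Set ℕ) (γ : I) (u v : ℕ) : Set ℕ :=
  {k | k ∈ Z ∧ u ≤ k ∧ k < v ∧ ∀ l, k ≤ l → l ∈ Z →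
    u < val l ∧ ∀ β, β < γ → e β ≤ u → l ∉ A β}

/-- the characteristic function of a random set -/
noncomputable def chf {X : Type} (Z : X → Set ℕ) (x : X) : Y := fun l => open Classical in
  decide (l ∈ Z x)

/-- An infinite almost disjoint family of infinite sets of naturals. -/
def IsAD (A : Set (Set ℕ)) : Prop :=
  A.Infinite ∧ (∀ a ∈ A, a.Infinite) ∧ (∀ a ∈ A, ∀ b ∈ A, a ≠ b → (a ∩ b).Finite)

/-- Maximality: every infinite set of naturals meets a member of `A` in an infinite set. -/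
def IsMax (A : Set (Set ℕ)) : Prop :=
  ∀ s : Set ℕ, s.Infinite → ∃ a ∈ A, (s ∩ a).Infinite

end Pool.Agent.Work.MP_da56a7_lc.B
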